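import Pool.Agent.H56.ER2.Targets

/-!
# MP_816b90_co: row II1 (the vertex `v` is not a hat)
-/

set_option autoImplicit false

open Pool.Agent.H48.ER Pool.Agent.H52.ER2 Pool.Agent.H66.ER2 Pool.Agent.H56.ER2

namespace Pool.Agent.H81.ER2

theorem pf_II1 (hPPR : T_PPR) (hCNI : T_CNI) (hAH : T_AH) : T_II1 := by
  intro V G v n z p q y x i j k hS hF hA
  by_contra hno
  push Not at hno
  obtain ⟨hip, h1, hy0, hx0, hyx, hcy, hcx, hv, _⟩ := hAH V G v n z p q y x i j k hA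
  have hjq : j + 1 ≤ q := by
    have h2 := hA.jk
    have h3 := hA.kq
    omega
  have hj1 := hA.j1
  have hpD : IP G (q - (j + 1)) (x (j + 1)) (x q) (seg x (j + 1) q) := by
    refine ⟨fun l => x (j + 1 + l), by simp, ?_, ?_, ?_, ?_⟩
    · show x (j + 1 + (q - (j + 1))) = x q
      congr 1; omega
    · intro a b ha hb e
      have := hA.px.inj _ _ (by omega) (by omega) e
      omega
    · intro a b ha hb
      show G.Adj (x (j + 1 + a)) (x (j + 1 + b)) ↔ _
      rw [hA.px.adj _ _ (by omega) (by omega)]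
      omega
    · ext w; constructor
      · rintro ⟨l, h2, h3, rfl⟩
        exact ⟨l - (j + 1), by omega, by show x (j + 1 + (l - (j + 1))) = x l; congr 1; omega⟩
      · rintro ⟨l, h2, rfl⟩
        exact ⟨j + 1 + l, by omega, by omega, rfl⟩
  obtain ⟨a, b, n', P, hP, ha0, _⟩ := hPPR V G v (y 0) (x 0) (y 1) (x 1) (i + j - 1)
    (seg y 1 i ∪ seg x 1 j) (seg x (j + 1) q) hS.cls.noh hip h1 hy0 hx0 hyx hcy hcx hv
    hA.ay.1 hA.ax.1 hno (hCNI V G _ _ _ _ hpD)
    (by rintro ⟨l, _, h3, e⟩; exact hA.vx l h3 e)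
    (by rintro ⟨l, _, h3, e⟩; exact (hA.ny l h3).1 e)
    (by
      rintro ⟨l, h2, h3, e⟩
      have := hA.px.inj _ _ h3 (Nat.zero_le _) e
      omega)
    (by
      rintro w ⟨l, h2, h3, rfl⟩
      constructor
      · intro h
        have := (hA.ny l h3).2.1 h.symm
        omega
      · intro h
        have := (hA.px.adj l 0 h3 (Nat.zero_le _)).1 h
        omega)
    ⟨x q, ⟨q, hjq, le_rfl, rfl⟩, by rw [hA.xy]; exact hA.b.1⟩
    ⟨x (j + 1), ⟨j + 1, le_rfl, hjq, rfl⟩, Or.inr ⟨x j, Or.inr ⟨j, hj1, le_rfl, rfl⟩,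
      (hA.px.adj (j + 1) j hjq (by omega)).2 (Or.inr rfl)⟩⟩
  exact (hS.nco a b n' P hP 0).1 ha0.symm

end Pool.Agent.H81.ER2
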