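import Pool.Agent.H56.ER2.Targets

/-!
# MP_816b90_co: row II3 (`z 1` is not a hat)
-/

set_option autoImplicit false

open Pool.Agent.H48.ER Pool.Agent.H52.ER2 Pool.Agent.H66.ER2 Pool.Agent.H56.ER2

namespace Pool.Agent.H81.ER2

private theorem ii3_seg {V : Type} {G : SimpleGraph V} {q : ℕ} {x : ℕ → V} (hx : PF G q x)
    {s t : ℕ} (hst : s ≤ t) (ht : t ≤ q) : IP G (t - s) (x s) (x t) (seg x s t) := by
  refine ⟨fun l => x (s + l), by simp, ?_, ?_, ?_, ?_⟩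
  · show x (s + (t - s)) = x t
    congr 1; omega
  · intro a b ha hb e
    have := hx.inj _ _ (by omega) (by omega) e
    omega
  · intro a b ha hb
    show G.Adj (x (s + a)) (x (s + b)) ↔ _
    rw [hx.adj _ _ (by omega) (by omega)]
    omega
  · ext w; constructor
    · rintro ⟨l, h2, h3, rfl⟩
      exact ⟨l - s, by omega, by show x (s + (l - s)) = x l; congr 1; omega⟩
    · rintro ⟨l, h2, rfl⟩
      exact ⟨s + l, by omega, by omega, rfl⟩

theorem pf_II3 (hPPR : T_PPR) (hCNI : T_CNI) (hCNU : T_CNU) (hAH : T_AH) (hII1 : T_II1)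
    (hTWO : T_TWO) : T_II3 := by
  intro V G v n z p q y x i j k hS hF hT hA
  by_contra hno
  push Not at hno
  obtain ⟨hip, h1, hy0, hx0, hyx, hcy, hcx, hv, hz1⟩ := hAH V G v n z p q y x i j k hA
  obtain ⟨u0, hu0, hvu0⟩ := hII1 V G v n z p q y x i j k hS hF hA
  have hjq : j + 1 ≤ q := by
    have h2 := hA.jk
    have h3 := hA.kq
    omega
  have hj1 := hA.j1
  have h4 := hF.four
  have hzpf := hS.so.pf
  have hW : ∀ l, 0 < l → l < n → z l ≠ v ∧ ¬ G.Adj v (z l) := fun l h2 h3 =>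
    hF.vw _ ⟨l, h2, h3, rfl⟩
  have hpD : IP G (q - (j + 1)) (x (j + 1)) (x q) (seg x (j + 1) q) := ii3_seg hA.px hjq le_rfl
  have hpE : IP G (n - 1 - 2) (z 2) (z (n - 1)) (seg z 2 (n - 1)) :=
    ii3_seg hzpf (by omega) (by omega)
  have hconn : Cn G (seg z 2 (n - 1) ∪ seg x (j + 1) q) := by
    refine hCNU V G _ _ (hCNI V G _ _ _ _ hpE) (hCNI V G _ _ _ _ hpD)
      ⟨z (n - 1), ⟨n - 1, by omega, le_rfl, rfl⟩, x q, ⟨q, hjq, le_rfl, rfl⟩, Or.inr ?_⟩
    rw [hA.xy]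
    exact hA.b.2.1.symm
  obtain ⟨a, b, n', P, hP, ha0, ha1, ha2, hP0, hP12⟩ := hPPR V G (z 1) (y 0) (x 0) (y 1) (x 1)
    (i + j - 1) (seg y 1 i ∪ seg x 1 j) (seg z 2 (n - 1) ∪ seg x (j + 1) q) hS.cls.noh hip h1
    hy0 hx0 hyx hcy hcx hz1 hA.ay.2.1.symm hA.ax.2.1.symm hno hconn
    (by
      rintro (⟨l, h2, h3, e⟩ | ⟨l, _, h3, e⟩)
      · have := hzpf.inj _ _ (by omega) (by omega) e
        omega
      · exact hA.zx l h3 e)
    (by
      rintro (⟨l, h2, h3, e⟩ | ⟨l, _, h3, e⟩)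
      · exact (hW l (by omega) (by omega)).2 (by rw [e]; exact hA.ay.1)
      · exact (hA.ny l h3).1 e)
    (by
      rintro (⟨l, h2, h3, e⟩ | ⟨l, h2, h3, e⟩)
      · exact (hW l (by omega) (by omega)).2 (by rw [e]; exact hA.ax.1)
      · have := hA.px.inj _ _ h3 (Nat.zero_le _) e
        omega)
    (by
      rintro w (⟨l, h2, h3, rfl⟩ | ⟨l, h2, h3, rfl⟩)
      · exact ⟨fun h => hA.ay.2.2 l (by omega) (by omega) h.symm,
          fun h => hA.ax.2.2 l (by omega) (by omega) h.symm⟩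
      · constructor
        · intro h
          have := (hA.ny l h3).2.1 h.symm
          omega
        · intro h
          have := (hA.px.adj l 0 h3 (Nat.zero_le _)).1 h
          omega)
    ⟨z 2, Or.inl ⟨2, le_rfl, by omega, rfl⟩,
      (hzpf.adj 1 2 (by omega) (by omega)).2 (Or.inl rfl)⟩
    ⟨x (j + 1), Or.inr ⟨j + 1, le_rfl, hjq, rfl⟩, Or.inr ⟨x j, Or.inr ⟨j, hj1, le_rfl, rfl⟩,
      (hA.px.adj (j + 1) j hjq (by omega)).2 (Or.inr rfl)⟩⟩
  have hvP : v ∉ ver P := by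
    rintro ⟨e, he⟩
    have h12 : v ∈ P 1 ∪ P 2 → False := by
      intro h
      rw [hP12] at h
      rcases h with h | h | h
      · exact hA.vy 0 (Nat.zero_le _) h.symm
      · exact hA.vx 0 (Nat.zero_le _) h.symm
      · exact hv h
    fin_cases e
    · rcases hP0 he with h | ⟨l, h2, h3, h⟩ | ⟨l, h2, h3, h⟩
      · exact (hW 1 (by omega) (by omega)).1 h.symm
      · exact (hW l (by omega) (by omega)).1 h
      · exact hA.vx l h3 h
    · exact h12 (Or.inl he)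
    · exact h12 (Or.inr he)
  have hva1 : G.Adj v (a 1) := by rw [ha1]; exact hA.ay.1
  have hva2 : G.Adj v (a 2) := by rw [ha2]; exact hA.ax.1
  have hva0 : ¬ G.Adj v (a 0) := by rw [ha0]; exact (hW 1 (by omega) (by omega)).2
  have hu12 : u0 ∈ P 1 ∨ u0 ∈ P 2 := by
    have : u0 ∈ P 1 ∪ P 2 := by
      rw [hP12]
      exact Or.inr (Or.inr hu0)
    exact this
  have hfin := hTWO V G a b n' P v hS.cls hP hvP hva1 hva2 hva0
    ⟨u0, hu12, by rw [ha1]; rintro rfl; exact hy0 hu0, by rw [ha2]; rintro rfl; exact hx0 hu0,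
      hvu0⟩
  exact hT a b n' P hP hvP ⟨⟨1, 2, by decide, hva1, hva2⟩, hfin⟩

end Pool.Agent.H81.ER2
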