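import Pool.Agent.H66.ER2.Targets

/-!
# MP_816b90_co: row OUE (outer paths are even)
-/

set_option autoImplicit false

open Pool.Agent.H48.ER Pool.Agent.H52.ER2 Pool.Agent.H66.ER2

namespace Pool.Agent.H81.ER2

theorem pf_OUE : T_OUE := by
  intro V G v n z hN hF hz
  have hip : IP G n (z 0) (z n) {w | ∃ i, i ≤ n ∧ z i = w} :=
    ⟨z, rfl, rfl, hz.pf.inj, hz.pf.adj, rfl⟩
  have h2 := hz.two
  have hev : Even n := by
    refine hN n (z 0) (z n) v _ hip h2 ?_ hz.left hz.right ?_
    · rintro ⟨i, hi, e⟩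
      rcases Nat.eq_zero_or_pos i with rfl | h0
      · exact G.loopless.irrefl _ (e ▸ hz.left)
      · rcases Nat.lt_or_ge i n with h | h
        · exact (hz.int i h0 h).1 e
        · have : i = n := le_antisymm hi h
          subst this
          exact G.loopless.irrefl _ (e ▸ hz.right)
    · rintro w ⟨i, hi, rfl⟩ hw
      rcases Nat.eq_zero_or_pos i with rfl | h0
      · exact Or.inl rfl
      · rcases Nat.lt_or_ge i n with h | h
        · exact absurd hw (hz.int i h0 h).2
        · exact Or.inr (by rw [le_antisymm hi h])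
  refine ⟨hev, ?_⟩
  by_contra hlt
  have hn : n = 2 := by
    obtain ⟨k, hk⟩ := hev
    omega
  subst hn
  have h1 := hz.int 1 (by norm_num) (by norm_num)
  have hadj := hF (z 1) h1.1 (fun h => h1.2 h.symm) (z 0) (z 2) hz.left hz.right
    ((hz.pf.adj 1 0 (by norm_num) (by norm_num)).2 (Or.inr rfl))
    ((hz.pf.adj 1 2 (by norm_num) le_rfl).2 (Or.inl rfl))
    (fun e => by simpa using hz.pf.inj 0 2 (by norm_num) le_rfl e)
  rcases (hz.pf.adj 0 2 (by norm_num) le_rfl).1 hadj with h | h <;> omega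

end Pool.Agent.H81.ER2
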